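import Mathlib
import Pool.Agent.H892.KT.Stm

/-!
# Project KT, WEIGHT: weights
-/

set_option autoImplicit false

open Filter Topology Set

namespace Pool.Agent.H195.KT

open Pool.Agent.H892.KT

theorem bA_zero : bA (0 : ℂ × ℂ) = 0 := by
  unfold bA
  simp

theorem norm_bA {p : ℂ × ℂ} (hp : ‖p‖ ≤ 1) : ‖bA p‖ = ‖p.2‖ := by
  have h1 : ‖p.1‖ ≤ 1 := (norm_fst_le p).trans hp
  unfold bA
  rw [Prod.norm_def]
  change max ‖p.1 * p.2‖ ‖p.2‖ = ‖p.2‖
  rw [norm_mul]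
  exact max_eq_right (mul_le_of_le_one_left (norm_nonneg _) h1)

theorem continuous_bA : Continuous bA := by
  unfold bA
  fun_prop

variable {n : ℕ}

theorem orb_zero_pt (K : KatoData n) (k : ℕ) : ∀ i : ZMod n, orb K.σ k i 0 = 0 := by
  induction k with
  | zero =>
    intro i
    rfl
  | succ k ih =>
    intro i
    change orb K.σ k (i + 1) (bA (K.σ i 0)) = 0
    rw [K.map_zero, bA_zero]
    exact ih (i + 1)

theorem orb_cont (K : KatoData n) (k : ℕ) : ∀ i : ZMod n,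
    ContinuousOn (fun y => orb K.σ k i y) (K.U i) := by
  induction k with
  | zero =>
    intro i
    exact continuousOn_id
  | succ k ih =>
    intro i
    have h1 : ContinuousOn (fun y => bA (K.σ i y)) (K.U i) :=
      continuous_bA.comp_continuousOn (K.diff i).continuousOn
    exact (ih (i + 1)).comp h1 (fun y hy => K.maps i y hy)

theorem orb_last (K : KatoData n) (k : ℕ) : ∀ (i : ZMod n) (y : ℂ × ℂ),
    orb K.σ (k + 1) i y = bA (K.σ (i + (k : ZMod n)) (orb K.σ k i y)) := by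
  induction k with
  | zero =>
    intro i y
    change bA (K.σ i y) = _
    rw [Nat.cast_zero, add_zero]
    rfl
  | succ k ih =>
    intro i y
    change orb K.σ (k + 1) (i + 1) (bA (K.σ i y)) = _
    rw [ih (i + 1) (bA (K.σ i y))]
    have h1 : i + 1 + (k : ZMod n) = i + ((k + 1 : ℕ) : ZMod n) := by
      push_cast
      ring
    rw [h1]
    rfl

/-- the neighbourhoods -/
def VV (K : KatoData n) (M : ℕ) (d : ℝ) (i : ZMod n) : Set (ℂ × ℂ) :=
  {y | y ∈ K.U i ∧ ∀ k < M, ‖orb K.σ k i y‖ < d}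

/-- the weights -/
noncomputable def WW (K : KatoData n) (M : ℕ) (hM : (Finset.range M).Nonempty) (i : ZMod n)
    (y : ℂ × ℂ) : ℝ :=
  (Finset.range M).sup' hM (fun k => ‖orb K.σ k i y‖ ^ (4 * M - 1 - 2 * k))

theorem VV_open (K : KatoData n) (M : ℕ) (d : ℝ) (i : ZMod n) : IsOpen (VV K M d i) := by
  have h1 : VV K M d i = K.U i ∩ ⋂ k ∈ Finset.range M,
      (K.U i ∩ (fun y => orb K.σ k i y) ⁻¹' Metric.ball 0 d) := by
    ext y
    constructor
    · rintro ⟨h1, h2⟩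
      refine ⟨h1, ?_⟩
      rw [mem_iInter₂]
      intro k hk
      refine ⟨h1, ?_⟩
      rw [mem_preimage, mem_ball_zero_iff]
      exact h2 k (Finset.mem_range.1 hk)
    · rintro ⟨h1, h2⟩
      refine ⟨h1, fun k hk => ?_⟩
      rw [mem_iInter₂] at h2
      have h3 := (h2 k (Finset.mem_range.2 hk)).2
      rw [mem_preimage, mem_ball_zero_iff] at h3
      exact h3
  rw [h1]
  refine (K.isOpen_U i).inter (isOpen_biInter_finset fun k _ => ?_)
  exact (orb_cont K k i).isOpen_inter_preimage (K.isOpen_U i) Metric.isOpen_ball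

theorem t_WEIGHT (h1 : S_LIP) : S_WEIGHT := by
  intro n _ K hQ
  obtain ⟨M, hM2, C, δ1, hδ1, hC0, hC⟩ := hQ
  obtain ⟨L, δ2, hL1, hδ2, hL⟩ := h1 n K
  refine ⟨4 * M - 1, by omega, ?_⟩
  intro ε hε
  have hMne : (Finset.range M).Nonempty := ⟨0, Finset.mem_range.2 (by omega)⟩
  set C' : ℝ := max C 1 with hC'
  have hC'1 : 1 ≤ C' := le_max_right _ _
  have hCC' : C ≤ C' := le_max_left _ _
  set P : ℝ := L ^ M with hP
  have hP1 : 1 ≤ P := one_le_pow₀ hL1
  set Q : ℝ := C' ^ (2 * M) with hQdef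
  have hQ1 : 1 ≤ Q := one_le_pow₀ hC'1
  set A : ℝ := P ^ 4 * Q with hA
  have hP4 : P ≤ P ^ 4 := le_self_pow₀ hP1 (by norm_num)
  have hA1 : P ^ 4 ≤ A := le_mul_of_one_le_right (by positivity) hQ1
  have hA2 : P ≤ A := hP4.trans hA1
  have hA3 : P * Q ≤ A := mul_le_mul_of_nonneg_right hP4 (by positivity)
  have hA4 : C' ≤ A := by
    have e1 : C' ≤ Q := le_self_pow₀ hC'1 (by omega)
    have e2 : Q ≤ A := le_mul_of_one_le_left (by positivity) (hP1.trans hP4)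
    exact e1.trans e2
  have hA5 : L ≤ A := by
    have e1 : L ≤ P := le_self_pow₀ hL1 (by omega)
    exact e1.trans hA2
  have hA0 : 1 ≤ A := hP1.trans hA2
  have hApos : 0 < A := by linarith
  set d : ℝ := min (min δ1 δ2) (min 1 ε / A) with hd
  have hd0 : 0 < d := by
    refine lt_min (lt_min hδ1 hδ2) (div_pos (lt_min one_pos hε) hApos)
  have hd1 : d ≤ δ1 := (min_le_left _ _).trans (min_le_left _ _)
  have hd2 : d ≤ δ2 := (min_le_left _ _).trans (min_le_right _ _)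
  have hAd : A * d ≤ min 1 ε := by
    have e1 : d ≤ min 1 ε / A := min_le_right _ _
    calc A * d ≤ A * (min 1 ε / A) := mul_le_mul_of_nonneg_left e1 hApos.le
      _ = min 1 ε := by field_simp
  have hAd1 : A * d ≤ 1 := hAd.trans (min_le_left _ _)
  have hAdε : A * d ≤ ε := hAd.trans (min_le_right _ _)
  have hB1 : ∀ B : ℝ, B ≤ A → B * d ≤ 1 := fun B hB =>
    (mul_le_mul_of_nonneg_right hB hd0.le).trans hAd1
  have hBε : ∀ B : ℝ, B ≤ A → B * d ≤ ε := fun B hB =>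
    (mul_le_mul_of_nonneg_right hB hd0.le).trans hAdε
  have hdle1 : d ≤ 1 := by
    have := hB1 1 hA0
    linarith
  have hdleε : d ≤ ε := by
    have := hBε 1 hA0
    linarith
  -- one step
  have hstep : ∀ (j : ZMod n) (z : ℂ × ℂ), ‖z‖ < d →
      ‖K.σ j z‖ ≤ 1 ∧ ‖K.σ j z‖ ≤ ε ∧ ‖bA (K.σ j z)‖ = ‖(K.σ j z).2‖ ∧
      ‖bA (K.σ j z)‖ ≤ L * ‖z‖ := by
    intro j z hz
    have e1 := (hL j z (hz.trans_le hd2)).2
    have e2 : L * ‖z‖ ≤ L * d := mul_le_mul_of_nonneg_left hz.le (by linarith)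
    have e3 := hB1 L hA5
    have e4 := hBε L hA5
    have e5 : ‖K.σ j z‖ ≤ 1 := by linarith
    refine ⟨e5, by linarith, norm_bA e5, ?_⟩
    rw [norm_bA e5]
    exact (norm_snd_le _).trans e1
  -- growth
  have hgrow : ∀ (i : ZMod n) (y : ℂ × ℂ), y ∈ VV K M d i → ∀ k < M,
      ‖orb K.σ (k + 1) i y‖ ≤ L * ‖orb K.σ k i y‖ := by
    intro i y hy k hk
    rw [orb_last]
    exact (hstep _ _ (hy.2 k hk)).2.2.2
  have hgrow0 : ∀ (i : ZMod n) (y : ℂ × ℂ), y ∈ VV K M d i → ∀ k ≤ M,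
      ‖orb K.σ k i y‖ ≤ L ^ k * ‖y‖ := by
    intro i y hy k
    induction k with
    | zero =>
      intro _
      change ‖y‖ ≤ L ^ 0 * ‖y‖
      rw [pow_zero, one_mul]
    | succ k ih =>
      intro hk
      have e1 := ih (by omega)
      have e2 := hgrow i y hy k (by omega)
      calc ‖orb K.σ (k + 1) i y‖ ≤ L * ‖orb K.σ k i y‖ := e2
        _ ≤ L * (L ^ k * ‖y‖) := mul_le_mul_of_nonneg_left e1 (by linarith)
        _ = L ^ (k + 1) * ‖y‖ := by ring
  have hgrow1 : ∀ (i : ZMod n) (y : ℂ × ℂ), y ∈ VV K M d i → ∀ k < M,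
      ‖orb K.σ (k + 1) i y‖ ≤ L ^ k * ‖orb K.σ 1 i y‖ := by
    intro i y hy k
    induction k with
    | zero =>
      intro _
      rw [pow_zero, one_mul]
    | succ k ih =>
      intro hk
      have e1 := ih (by omega)
      have e2 := hgrow i y hy (k + 1) hk
      calc ‖orb K.σ (k + 1 + 1) i y‖ ≤ L * ‖orb K.σ (k + 1) i y‖ := e2
        _ ≤ L * (L ^ k * ‖orb K.σ 1 i y‖) := mul_le_mul_of_nonneg_left e1 (by linarith)
        _ = L ^ (k + 1) * ‖orb K.σ 1 i y‖ := by ring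
  have hLP : ∀ k ≤ M, L ^ k ≤ P := fun k hk => pow_le_pow_right₀ hL1 hk
  have hsm : ∀ (i : ZMod n) (y : ℂ × ℂ), y ∈ VV K M d i → ‖y‖ < d := fun i y hy =>
    hy.2 0 (by omega)
  have hlow : ∀ (i : ZMod n) (y : ℂ × ℂ), ‖y‖ ^ (4 * M - 1) ≤ WW K M hMne i y := by
    intro i y
    have := Finset.le_sup' (fun k => ‖orb K.σ k i y‖ ^ (4 * M - 1 - 2 * k))
      (Finset.mem_range.2 (by omega : 0 < M))
    exact this
  refine ⟨VV K M d, WW K M hMne, ?_⟩
  refine ⟨?_, ?_, ?_, ?_, ?_, ?_, ?_, ?_, ?_⟩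
  · exact fun i => VV_open K M d i
  · intro i
    refine ⟨K.zero_mem i, fun k _ => ?_⟩
    rw [orb_zero_pt, norm_zero]
    exact hd0
  · exact fun i y hy => hy.1
  · exact fun i y hy => (hsm i y hy).trans_le hdleε
  · intro i y hy
    refine ⟨K.maps i y hy.1, fun k hk => ?_⟩
    change ‖orb K.σ (k + 1) i y‖ < d
    rcases Nat.lt_or_ge (k + 1) M with hk' | hk'
    · exact hy.2 _ hk'
    · have hkM : k + 1 = M := by omega
      rw [hkM]
      have e0 := hsm i y hy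
      have e1 := (hC i y (e0.trans_le hd1)).2
      have e2 : C * ‖y‖ ^ 2 ≤ ‖y‖ := by
        have e3 : C * ‖y‖ ≤ 1 := by
          calc C * ‖y‖ ≤ C' * d := mul_le_mul hCC' e0.le (norm_nonneg _) (by linarith)
            _ ≤ 1 := hB1 C' hA4
        calc C * ‖y‖ ^ 2 = (C * ‖y‖) * ‖y‖ := by ring
          _ ≤ 1 * ‖y‖ := mul_le_mul_of_nonneg_right e3 (norm_nonneg _)
          _ = ‖y‖ := one_mul _
      linarith
  · intro i y hy
    exact (hstep i y (hsm i y hy)).2.1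
  · exact fun i y _ => hlow i y
  · intro i y hy
    refine Finset.sup'_le _ _ fun k hk => ?_
    have hkM : k < M := Finset.mem_range.1 hk
    have e0 := hsm i y hy
    have e1 : ‖orb K.σ k i y‖ ≤ P * ‖y‖ :=
      (hgrow0 i y hy k hkM.le).trans (mul_le_mul_of_nonneg_right (hLP k hkM.le) (norm_nonneg _))
    have e2 : P * ‖y‖ ≤ 1 :=
      (mul_le_mul_of_nonneg_left e0.le (by linarith)).trans (hB1 P hA2)
    have e3 : 0 ≤ P * ‖y‖ := mul_nonneg (by linarith) (norm_nonneg _)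
    calc ‖orb K.σ k i y‖ ^ (4 * M - 1 - 2 * k) ≤ (P * ‖y‖) ^ (4 * M - 1 - 2 * k) :=
          pow_le_pow_left₀ (norm_nonneg _) e1 _
      _ ≤ (P * ‖y‖) ^ 4 := pow_le_pow_of_le_one e3 e2 (by omega)
      _ = (P ^ 4 * ‖y‖) * ‖y‖ ^ 3 := by ring
      _ ≤ 1 * ‖y‖ ^ 3 := by
          refine mul_le_mul_of_nonneg_right ?_ (by positivity)
          exact (mul_le_mul_of_nonneg_left e0.le (by positivity)).trans (hB1 (P ^ 4) hA1)
      _ = ‖y‖ ^ 3 := one_mul _
  · intro i y hy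
    have e0 := hsm i y hy
    have hy1 : ‖(K.σ i y).2‖ = ‖orb K.σ 1 i y‖ := (hstep i y e0).2.2.1.symm
    rw [hy1]
    have hW0 : 0 ≤ WW K M hMne i y := le_trans (by positivity) (hlow i y)
    refine Finset.sup'_le _ _ fun k hk => ?_
    have hkM : k < M := Finset.mem_range.1 hk
    change ‖orb K.σ (k + 1) i y‖ ^ (4 * M - 1 - 2 * k) ≤ _
    have g1 := hgrow1 i y hy k hkM
    have g2 : ‖orb K.σ (k + 1) i y‖ ≤ P * ‖orb K.σ 1 i y‖ :=
      g1.trans (mul_le_mul_of_nonneg_right (hLP k hkM.le) (norm_nonneg _))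
    rcases Nat.lt_or_ge (k + 1) M with hk' | hk'
    · have g3 := hy.2 _ hk'
      have g4 : ‖orb K.σ (k + 1) i y‖ ^ (4 * M - 1 - 2 * (k + 1)) ≤ WW K M hMne i y :=
        Finset.le_sup' (fun k => ‖orb K.σ k i y‖ ^ (4 * M - 1 - 2 * k))
          (Finset.mem_range.2 hk')
      have g5 : 4 * M - 1 - 2 * k = (4 * M - 1 - 2 * (k + 1)) + 2 := by omega
      have g6 : ‖orb K.σ (k + 1) i y‖ ^ 2 ≤ ε * ‖orb K.σ 1 i y‖ := by
        calc ‖orb K.σ (k + 1) i y‖ ^ 2 = ‖orb K.σ (k + 1) i y‖ * ‖orb K.σ (k + 1) i y‖ := sq _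
          _ ≤ d * (P * ‖orb K.σ 1 i y‖) := mul_le_mul g3.le g2 (norm_nonneg _) hd0.le
          _ = (P * d) * ‖orb K.σ 1 i y‖ := by ring
          _ ≤ ε * ‖orb K.σ 1 i y‖ := mul_le_mul_of_nonneg_right (hBε P hA2) (norm_nonneg _)
      rw [g5, pow_add]
      calc ‖orb K.σ (k + 1) i y‖ ^ (4 * M - 1 - 2 * (k + 1)) * ‖orb K.σ (k + 1) i y‖ ^ 2 ≤
            WW K M hMne i y * (ε * ‖orb K.σ 1 i y‖) := mul_le_mul g4 g6 (by positivity) hW0
        _ = ε * ‖orb K.σ 1 i y‖ * WW K M hMne i y := by ring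
    · have hkM' : k + 1 = M := by omega
      have g5 : 4 * M - 1 - 2 * k = 1 + 2 * M := by omega
      rw [g5, pow_add, pow_one]
      have g6 : ‖orb K.σ (k + 1) i y‖ ≤ C' * ‖y‖ ^ 2 := by
        rw [hkM']
        exact ((hC i y (e0.trans_le hd1)).2).trans
          (mul_le_mul_of_nonneg_right hCC' (by positivity))
      have g7 : ‖orb K.σ (k + 1) i y‖ ^ (2 * M) ≤ Q * ‖y‖ * ‖y‖ ^ (4 * M - 1) := by
        calc ‖orb K.σ (k + 1) i y‖ ^ (2 * M) ≤ (C' * ‖y‖ ^ 2) ^ (2 * M) :=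
              pow_le_pow_left₀ (norm_nonneg _) g6 _
          _ = Q * ‖y‖ ^ (4 * M) := by
              rw [mul_pow, ← pow_mul]
              congr 2
              ring
          _ = Q * ‖y‖ * ‖y‖ ^ (4 * M - 1) := by
              have g8 : 4 * M = (4 * M - 1) + 1 := by omega
              rw [mul_assoc, ← pow_succ', ← g8]
      calc ‖orb K.σ (k + 1) i y‖ * ‖orb K.σ (k + 1) i y‖ ^ (2 * M) ≤
            (P * ‖orb K.σ 1 i y‖) * (Q * ‖y‖ * ‖y‖ ^ (4 * M - 1)) :=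
            mul_le_mul g2 g7 (by positivity) (by positivity)
        _ = (P * Q * ‖y‖) * ‖orb K.σ 1 i y‖ * ‖y‖ ^ (4 * M - 1) := by ring
        _ ≤ ε * ‖orb K.σ 1 i y‖ * WW K M hMne i y := by
            refine mul_le_mul ?_ (hlow i y) (by positivity) (by positivity)
            refine mul_le_mul_of_nonneg_right ?_ (norm_nonneg _)
            exact (mul_le_mul_of_nonneg_left e0.le (by positivity)).trans (hBε (P * Q) hA3)

end Pool.Agent.H195.KT
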